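import Pool.Agent.Helper33.CA.CalkinH

/-! MP_464bf1_lc: no *-endomorphism (so no automorphism) of the Calkin algebra of `ℓ²(ℕ)` maps the
class of the unilateral shift to the class of its adjoint. -/

namespace Pool.Agent.Results.MP_464bf1_lc.ShiftNotToAdjoint

open CA

/-- `S` is the unilateral shift: `S e_n = e_{n+1}` for all `n`. -/
def IsShift (S : BH) : Prop := ∀ n : ℕ, S.app (bas n) = bas (n + 1)

/-- `Φ` is a *-homomorphism of the Calkin algebra to itself (not assumed unital). -/
def IsStarHom (Φ : QH → QH) : Prop :=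
  (∀ a b, Φ (a + b) = Φ a + Φ b) ∧ (∀ a b, Φ (a * b) = Φ a * Φ b) ∧
    (∀ (c : ℂ) (a : QH), Φ (c • a) = c • Φ a) ∧ ∀ a, Φ (star a) = star (Φ a)

/-- The operator with `S e_n = e_{n+1}` is unique. -/
theorem eq_shift (S : L2N →L[ℂ] L2N)
    (hS : ∀ n : ℕ, S (lp.single 2 n (1 : ℂ)) = lp.single 2 (n + 1) (1 : ℂ)) : S = shift := by
  have h1 : star S = star shift := by
    ext f k
    have e1 : (star S f) k = inner ℂ (lp.single 2 k (1 : ℂ) : L2N) (star S f) := by
      rw [lp.inner_single_left]; simp
    have e2 : (star shift f) k = inner ℂ (lp.single 2 k (1 : ℂ) : L2N) (star shift f) := by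
      rw [lp.inner_single_left]; simp
    rw [e1, e2, inner_star_right, inner_star_right, hS, shift_single]
  rw [← star_star S, h1, star_star]

theorem shift_star_ceq : CEq (shift * star shift) 1 := by
  have h1 := shift_amp_cpt (X := Unit) 1
  rw [pow_one, pow_one] at h1
  have h2 := (h1.comp_right (inj L2N ())).comp_left (pr L2N ())
  have e1 : pr L2N () ∘L (tw (shift * star shift) (1 : Equiv.Perm Unit) ∘L inj L2N ()) =
      shift * star shift := by
    ext v k
    simp
  have e2 : pr L2N () ∘L ((1 : Amp L2N Unit →L[ℂ] Amp L2N Unit) ∘L inj L2N ()) = 1 := by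
    ext v k
    simp
  rwa [e1, e2] at h2

/-- No *-homomorphism of the Calkin algebra to itself, unital or not, sends `π(S)` to `π(S*)`. -/
theorem no_hom (S : BH) (hS : (show L2N →L[ℂ] L2N from S) = shift) (Φ : QH →⋆ₙₐ[ℂ] QH) :
    Φ (quo S) ≠ quo (star S) := by
  intro h
  have h1 : Φ 1 = 1 := by
    have hs : star (quo S) * quo S = 1 := by
      rw [star_quo, ← map_mul]
      have : star S * S = 1 := by
        have e : star (show L2N →L[ℂ] L2N from S) * (show L2N →L[ℂ] L2N from S) = 1 := by
          rw [hS]; exact star_injOp_mul _ _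
        exact e
      rw [this, map_one]
    have hs' : quo S * quo (star S) = 1 := by
      rw [← map_mul, ← map_one quo, quo_eq_iff]
      have e : CEq ((show L2N →L[ℂ] L2N from S) * star (show L2N →L[ℂ] L2N from S)) 1 := by
        rw [hS]; exact shift_star_ceq
      exact e
    have h2 : star (Φ (quo S)) * Φ (quo S) = 1 := by
      rw [h, star_quo, star_star]
      exact hs'
    rw [← hs, map_mul, map_star, h2, hs]
  obtain ⟨l, hl, hl'⟩ := exists_liftHomH Φ h1
  refine final_lift l hl ?_
  rw [← hS]
  have e : quo (l S) = quo (star S) := (hl' S).trans h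
  exact (quo_eq_iff _ _).1 e

/-- The unilateral shift exists, and no *-homomorphism (in particular no *-automorphism) of the
Calkin algebra to itself maps its class `π(S)` to `π(S*)`. -/
theorem result :
    (∃ S : BH, IsShift S) ∧ ∀ S : BH, IsShift S →
      ¬ ∃ Φ : QH → QH, IsStarHom Φ ∧ Φ (quo S) = quo (star S) := by
  refine ⟨⟨shift, shift_single⟩, fun S hS => ?_⟩
  have hS' : (show L2N →L[ℂ] L2N from S) = shift := eq_shift _ hS
  rintro ⟨Φ, ⟨h1, h2, h3, h4⟩, h⟩
  let Ψ : QH →⋆ₙₐ[ℂ] QH :=
    { toFun := Φ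
      map_smul' := h3
      map_zero' := by
        have := h3 0 0
        rwa [zero_smul, zero_smul] at this
      map_add' := h1
      map_mul' := h2
      map_star' := h4 }
  exact no_hom S hS' Ψ h

end Pool.Agent.Results.MP_464bf1_lc.ShiftNotToAdjoint
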